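import Mathlib.Tactic
import Mathlib.NumberTheory.ArithmeticFunction.Misc
import Mathlib.NumberTheory.ArithmeticFunction.Zeta
import Mathlib.NumberTheory.Padics.PadicVal.Basic

/-!
The divisor sum `∑ d ∣ n, d τ(d)` and its values at prime powers.
-/

namespace Pool.Agent.AS

open ArithmeticFunction Finset

/-- `d ↦ d τ(d)` -/
def hh : ArithmeticFunction ℕ := pmul ArithmeticFunction.id (sigma 0)

/-- `F(n) = ∑ d ∣ n, d τ(d)` -/
def FF : ArithmeticFunction ℕ := hh * ↑zeta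

theorem hh_apply (n : ℕ) : hh n = n * n.divisors.card := by
  unfold hh
  rw [pmul_apply, id_apply, sigma_zero_apply]

theorem FF_apply (n : ℕ) : FF n = ∑ d ∈ n.divisors, d * d.divisors.card := by
  unfold FF
  rw [mul_zeta_apply]
  exact Finset.sum_congr rfl fun d _ => hh_apply d

theorem FF_mult : FF.IsMultiplicative := by
  unfold FF hh
  exact (isMultiplicative_id.pmul isMultiplicative_sigma).mul isMultiplicative_zeta.natCast

/-- `T(N) = ∑ j < N, (j+1) x^j` -/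
def TT (x N : ℕ) : ℕ := ∑ j ∈ range N, (j + 1) * x ^ j

/-- `G(N) = ∑ j < N, x^j` -/
def GG (x N : ℕ) : ℕ := ∑ j ∈ range N, x ^ j

theorem FF_prime_pow {p : ℕ} (hp : p.Prime) (e : ℕ) : FF (p ^ e) = TT p (e + 1) := by
  rw [FF_apply, Nat.sum_divisors_prime_pow hp]
  unfold TT
  refine Finset.sum_congr rfl fun j _ => ?_
  rw [Nat.divisors_prime_pow hp, Finset.card_map, Finset.card_range, mul_comm]

theorem sigma_prime_pow {p : ℕ} (hp : p.Prime) (e : ℕ) : sigma 1 (p ^ e) = GG p (e + 1) := by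
  rw [sigma_one_apply, Nat.sum_divisors_prime_pow hp]
  rfl

theorem TT_double (x N : ℕ) : TT x (2 * N) = TT x N * (1 + x ^ N) + N * (x ^ N * GG x N) := by
  unfold TT GG
  rw [two_mul, Finset.sum_range_add, mul_add, mul_one, add_assoc]
  congr 1
  rw [Finset.sum_mul, Finset.mul_sum, Finset.mul_sum, ← Finset.sum_add_distrib]
  refine Finset.sum_congr rfl fun j _ => ?_
  rw [pow_add]
  ring

theorem GG_double (x N : ℕ) : GG x (2 * N) = GG x N * (1 + x ^ N) := by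
  unfold GG
  rw [two_mul, Finset.sum_range_add, mul_add, mul_one]
  congr 1
  rw [Finset.sum_mul]
  refine Finset.sum_congr rfl fun j _ => ?_
  rw [pow_add]
  ring

theorem TT_succ (x N : ℕ) : TT x (N + 1) = TT x N + (N + 1) * x ^ N := by
  unfold TT
  rw [Finset.sum_range_succ]

theorem GG_succ (x N : ℕ) : GG x (N + 1) = GG x N + x ^ N := by
  unfold GG
  rw [Finset.sum_range_succ]

theorem GG_parity {x : ℕ} (hx : Odd x) (N : ℕ) : GG x N % 2 = N % 2 := by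
  induction N with
  | zero => rfl
  | succ N ih =>
    rw [GG_succ]
    have h : x ^ N % 2 = 1 := Nat.odd_iff.mp hx.pow
    omega

/-- `T(2M)` has the parity of `M`. -/
theorem TT_parity {x : ℕ} (hx : Odd x) (M : ℕ) : TT x (2 * M) % 2 = M % 2 := by
  induction M with
  | zero => rfl
  | succ M ih =>
    rw [show 2 * (M + 1) = 2 * M + 1 + 1 by ring, TT_succ, TT_succ]
    have h1 : x ^ (2 * M) % 2 = 1 := Nat.odd_iff.mp hx.pow
    have h2 : x ^ (2 * M + 1) % 2 = 1 := Nat.odd_iff.mp hx.pow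
    have h3 : (2 * M + 1) * x ^ (2 * M) % 2 = 1 := by
      rw [Nat.mul_mod, h1]; omega
    have h4 : (2 * M + 1 + 1) * x ^ (2 * M + 1) % 2 = 0 := by
      rw [Nat.mul_mod, h2]; omega
    omega

theorem one_add_pow_mod {x : ℕ} (hx : Odd x) (M : ℕ) : (1 + x ^ (2 * M)) % 4 = 2 := by
  have h : x ^ (2 * M) % 4 = 1 := by
    rw [pow_mul, Nat.pow_mod]
    obtain ⟨k, hk⟩ := hx
    have : x ^ 2 % 4 = 1 := by
      rw [hk]
      ring_nf
      omega
    simp [this]
  omega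

theorem TT_pos {x N : ℕ} (hN : 0 < N) : 0 < TT x N := by
  obtain ⟨k, rfl⟩ : ∃ k, N = k + 1 := ⟨N - 1, by omega⟩
  unfold TT
  rw [Finset.sum_range_succ']
  positivity

/-- the exact power of `2` in `T(2M)` is that in `M` -/
theorem TT_two_val {x : ℕ} (hx : Odd x) : ∀ (r M : ℕ), Odd M →
    ∃ c, Odd c ∧ TT x (2 * (2 ^ r * M)) = 2 ^ r * c
  | 0, M, hM => by
    refine ⟨TT x (2 * M), ?_, by simp⟩
    rw [Nat.odd_iff, TT_parity hx, ← Nat.odd_iff]
    exact hM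
  | r + 1, M, hM => by
    obtain ⟨c, hc, he⟩ := TT_two_val hx r M hM
    have e1 : 2 ^ (r + 1) * M = 2 * (2 ^ r * M) := by ring
    rw [e1, TT_double, he]
    have h1 := one_add_pow_mod hx (2 ^ r * M)
    obtain ⟨u, hu⟩ : ∃ u, 1 + x ^ (2 * (2 ^ r * M)) = 2 * (2 * u + 1) :=
      ⟨(1 + x ^ (2 * (2 ^ r * M))) / 4, by omega⟩
    have h2 : GG x (2 * (2 ^ r * M)) % 2 = 0 := by rw [GG_parity hx]; omega
    obtain ⟨g, hg⟩ : ∃ g, GG x (2 * (2 ^ r * M)) = 2 * g := ⟨GG x (2 * (2 ^ r * M)) / 2, by omega⟩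
    rw [hu, hg]
    refine ⟨c * (2 * u + 1) + 2 * (M * (x ^ (2 * (2 ^ r * M)) * g)), ?_, by ring⟩
    exact (hc.mul (odd_two_mul_add_one u)).add_even (even_two_mul _)

theorem exists_two_pow {N : ℕ} (hN : 0 < N) : ∃ r M, Odd M ∧ N = 2 ^ r * M := by
  obtain ⟨r, M, hM, he⟩ := Nat.exists_eq_two_pow_mul_odd hN.ne'
  exact ⟨r, M, hM, he⟩

theorem val_two_pow {r c : ℕ} (hc : Odd c) : padicValNat 2 (2 ^ r * c) = r := by
  have hc0 : c ≠ 0 := by rintro rfl; exact absurd hc (by decide)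
  rw [padicValNat.mul (by positivity) hc0, padicValNat.prime_pow,
    padicValNat.eq_zero_of_not_dvd (fun h => by obtain ⟨k, hk⟩ := hc; omega), add_zero]

theorem TT_val_even {x N : ℕ} (hx : Odd x) (hN : 0 < N) (he : Even N) :
    padicValNat 2 (TT x N) + 1 = padicValNat 2 N := by
  obtain ⟨K, hK⟩ := he.two_dvd
  obtain ⟨r, M, hM, hKM⟩ := exists_two_pow (N := K) (by omega)
  obtain ⟨c, hc, hT⟩ := TT_two_val hx r M hM
  rw [hK, hKM, hT, val_two_pow hc, show 2 * (2 ^ r * M) = 2 ^ (r + 1) * M by ring, val_two_pow hM]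

theorem TT_val_odd {x N : ℕ} (hx : Odd x) (ho : Odd N) :
    padicValNat 2 (TT x N) + 1 = padicValNat 2 (N + 1) := by
  obtain ⟨K, hK⟩ : ∃ K, N + 1 = 2 * K := by
    obtain ⟨k, hk⟩ := ho
    exact ⟨k + 1, by omega⟩
  obtain ⟨r, M, hM, hKM⟩ := exists_two_pow (N := K) (by omega)
  obtain ⟨c, hc, hT⟩ := TT_two_val hx r M hM
  have h1 := TT_succ x N
  have e2 : 2 * (2 ^ r * M) = 2 ^ (r + 1) * M := by ring
  rw [hK, hKM, hT, e2] at h1
  have h2 : TT x N = 2 ^ r * (c - 2 * (M * x ^ N)) := by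
    rw [Nat.mul_sub]
    have : 2 ^ r * (2 * (M * x ^ N)) = 2 ^ (r + 1) * M * x ^ N := by ring
    rw [this]
    omega
  have hT0 : 0 < TT x N := TT_pos ho.pos
  have h3 : 0 < c - 2 * (M * x ^ N) := by
    by_contra h
    have : c - 2 * (M * x ^ N) = 0 := by omega
    rw [this, mul_zero] at h2
    omega
  have h4 : Odd (c - 2 * (M * x ^ N)) := by
    rw [Nat.odd_iff] at hc ⊢
    omega
  rw [h2, val_two_pow h4, hK, hKM, e2, val_two_pow hM]

theorem GG_dvd {x : ℕ} (hx : Odd x) : ∀ (r N : ℕ), 2 ^ r ∣ N → 2 ^ r ∣ GG x N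
  | 0, N, _ => by simp
  | r + 1, N, h => by
    obtain ⟨M, rfl⟩ := h
    rw [show 2 ^ (r + 1) * M = 2 * (2 ^ r * M) by ring, GG_double, pow_succ]
    refine mul_dvd_mul (GG_dvd hx r _ (Dvd.intro M rfl)) ?_
    have h : x ^ (2 ^ r * M) % 2 = 1 := Nat.odd_iff.mp hx.pow
    omega

end Pool.Agent.AS
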