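import Pool.Agent.AS.Basic

/-!
2-adic structure of the solutions of `a(n) = σ(n)`.
-/

namespace Pool.Agent.AS

open ArithmeticFunction Finset

/-- the equation in natural numbers -/
theorem equation {n : ℕ} (hn : 0 < n)
    (h : (n : ℤ) * n.divisors.card - ∑ d ∈ n.properDivisors, (d : ℤ) * d.divisors.card =
      ∑ d ∈ n.divisors, (d : ℤ)) :
    FF n + sigma 1 n = 2 * (n * n.divisors.card) := by
  have e1 : FF n = ∑ d ∈ n.properDivisors, d * d.divisors.card + n * n.divisors.card := by
    rw [FF_apply, ← Nat.insert_self_properDivisors hn.ne', Finset.sum_insert (by simp), add_comm,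
      Nat.insert_self_properDivisors hn.ne']
  rw [e1, sigma_one_apply]
  zify
  linarith

theorem val_prod {ι : Type*} (s : Finset ι) (f : ι → ℕ) (hf : ∀ i ∈ s, f i ≠ 0) :
    padicValNat 2 (∏ i ∈ s, f i) = ∑ i ∈ s, padicValNat 2 (f i) := by
  classical
  induction s using Finset.induction_on with
  | empty => simp
  | insert i s hi ih =>
    rw [Finset.prod_insert hi, Finset.sum_insert hi,
      padicValNat.mul (hf i (by simp)) (Finset.prod_ne_zero_iff.mpr fun j hj => hf j (by simp [hj])),
      ih fun j hj => hf j (by simp [hj])]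

theorem FF_prod {n : ℕ} (hn : n ≠ 0) :
    FF n = ∏ p ∈ n.primeFactors, TT p (n.factorization p + 1) := by
  rw [FF_mult.multiplicative_factorization _ hn]
  refine Finset.prod_congr rfl fun p hp => ?_
  exact FF_prime_pow (Nat.prime_of_mem_primeFactors hp) _

theorem sigma_prod {n : ℕ} (hn : n ≠ 0) :
    sigma 1 n = ∏ p ∈ n.primeFactors, GG p (n.factorization p + 1) := by
  rw [isMultiplicative_sigma.multiplicative_factorization _ hn]
  refine Finset.prod_congr rfl fun p hp => ?_
  exact sigma_prime_pow (Nat.prime_of_mem_primeFactors hp) _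

theorem TT_two_odd (N : ℕ) (hN : 0 < N) : Odd (TT 2 N) := by
  obtain ⟨k, rfl⟩ : ∃ k, N = k + 1 := ⟨N - 1, by omega⟩
  unfold TT
  rw [Finset.sum_range_succ']
  refine Even.add_odd ?_ (by simp)
  exact Finset.even_sum _ fun j _ => (even_two.pow_of_ne_zero (Nat.succ_ne_zero j)).mul_left _

theorem odd_of_mem {n p : ℕ} (hp : p ∈ n.primeFactors.erase 2) : Odd p :=
  (Nat.prime_of_mem_primeFactors (Finset.mem_of_mem_erase hp)).odd_of_ne_two
    (Finset.ne_of_mem_erase hp)

theorem val_FF {n : ℕ} (hn : n ≠ 0) :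
    padicValNat 2 (FF n) = ∑ p ∈ n.primeFactors.erase 2, padicValNat 2 (TT p (n.factorization p + 1)) := by
  rw [FF_prod hn, val_prod _ _ fun p _ => (TT_pos (Nat.succ_pos _)).ne']
  by_cases h2 : 2 ∈ n.primeFactors
  · rw [← Finset.add_sum_erase _ _ h2, padicValNat.eq_zero_of_not_dvd, zero_add]
    intro h
    have := TT_two_odd (n.factorization 2 + 1) (Nat.succ_pos _)
    exact (Nat.not_even_iff_odd.mpr this) (even_iff_two_dvd.mpr h)
  · rw [Finset.erase_eq_of_notMem h2]

theorem two_adic {n : ℕ} (hn : 0 < n) (he : FF n + sigma 1 n = 2 * (n * n.divisors.card)) :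
    ((n.primeFactors.erase 2).filter fun p => Odd (n.factorization p)).card ≤
      ∑ p ∈ (n.primeFactors.erase 2).filter (fun p => Even (n.factorization p)),
        (padicValNat 2 (n.factorization p + 2) - 1) := by
  have hn0 : n ≠ 0 := hn.ne'
  obtain ⟨O, hO⟩ : ∃ O, O = (n.primeFactors.erase 2).filter fun p => Odd (n.factorization p) :=
    ⟨_, rfl⟩
  obtain ⟨t, ht⟩ : ∃ t, t = ∑ p ∈ O, padicValNat 2 (n.factorization p + 1) := ⟨_, rfl⟩
  have hOsub : O ⊆ n.primeFactors := by
    rw [hO]
    exact (Finset.filter_subset _ _).trans (Finset.erase_subset _ _)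
  have hOodd : ∀ p ∈ O, Odd p := by
    intro p hp
    rw [hO] at hp
    exact odd_of_mem (Finset.mem_of_mem_filter p hp)
  have hpow : 2 ^ t = ∏ p ∈ O, 2 ^ padicValNat 2 (n.factorization p + 1) := by
    rw [ht, Finset.prod_pow_eq_pow_sum]
  -- `2 ^ t` divides `σ(n)` and `τ(n)`
  have hs : 2 ^ t ∣ sigma 1 n := by
    rw [sigma_prod hn0, hpow]
    refine dvd_trans (Finset.prod_dvd_prod_of_dvd _ (fun p => GG p (n.factorization p + 1)) ?_)
      (Finset.prod_dvd_prod_of_subset _ _ _ hOsub)
    intro p hp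
    exact GG_dvd (hOodd p hp) _ _ pow_padicValNat_dvd
  have hτ : 2 ^ t ∣ n.divisors.card := by
    rw [Nat.card_divisors hn0, hpow]
    refine dvd_trans (Finset.prod_dvd_prod_of_dvd _ (fun p => n.factorization p + 1) ?_)
      (Finset.prod_dvd_prod_of_subset _ _ _ hOsub)
    intro p _
    exact pow_padicValNat_dvd
  have hF : 2 ^ t ∣ FF n := by
    rw [← Nat.dvd_add_left hs, he]
    exact (hτ.mul_left n).mul_left 2
  have hF0 : FF n ≠ 0 := by
    rw [FF_prod hn0]
    exact Finset.prod_ne_zero_iff.mpr fun p _ => (TT_pos (Nat.succ_pos _)).ne'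
  have hval : t ≤ padicValNat 2 (FF n) := (padicValNat_dvd_iff_le hF0).mp hF
  rw [val_FF hn0, ← Finset.sum_filter_add_sum_filter_not _ (fun p => Odd (n.factorization p)),
    ← hO] at hval
  have hodd : ∀ p ∈ O, padicValNat 2 (TT p (n.factorization p + 1)) + 1 =
      padicValNat 2 (n.factorization p + 1) := by
    intro p hp
    have hop := hOodd p hp
    rw [hO, Finset.mem_filter] at hp
    exact TT_val_even hop (Nat.succ_pos _) hp.2.add_one
  have hsum : ∑ p ∈ O, padicValNat 2 (TT p (n.factorization p + 1)) + O.card = t := by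
    rw [ht, Finset.card_eq_sum_ones, ← Finset.sum_add_distrib]
    exact Finset.sum_congr rfl hodd
  have heven : ∑ p ∈ (n.primeFactors.erase 2).filter (fun p => ¬ Odd (n.factorization p)),
      padicValNat 2 (TT p (n.factorization p + 1)) =
      ∑ p ∈ (n.primeFactors.erase 2).filter (fun p => Even (n.factorization p)),
        (padicValNat 2 (n.factorization p + 2) - 1) := by
    refine Finset.sum_congr ?_ ?_
    · exact Finset.filter_congr fun p _ => Nat.not_odd_iff_even
    · intro p hp
      rw [Finset.mem_filter] at hp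
      have := TT_val_odd (odd_of_mem hp.1) hp.2.add_one
      rw [show n.factorization p + 2 = n.factorization p + 1 + 1 by ring, ← this]
      rfl
  rw [heven] at hval
  rw [← hO]
  omega

theorem fourth_power {n : ℕ} (hn : 0 < n) (he : FF n + sigma 1 n = 2 * (n * n.divisors.card))
    (h : ∀ p ∈ n.primeFactors.erase 2, Even (n.factorization p)) :
    ∀ p ∈ n.primeFactors.erase 2, 4 ∣ n.factorization p := by
  have hn0 : n ≠ 0 := hn.ne'
  have hσ : Odd (sigma 1 n) := by
    rw [sigma_prod hn0]
    refine Finset.prod_induction _ Odd (fun a b ha hb => ha.mul hb) odd_one ?_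
    intro p hp
    by_cases h2 : p = 2
    · subst h2
      unfold GG
      rw [Finset.sum_range_succ']
      refine Even.add_odd ?_ (by simp)
      exact Finset.even_sum _ fun j _ => even_two.pow_of_ne_zero (Nat.succ_ne_zero j)
    · have hp' : p ∈ n.primeFactors.erase 2 := Finset.mem_erase.mpr ⟨h2, hp⟩
      rw [Nat.odd_iff, GG_parity (odd_of_mem hp'), ← Nat.odd_iff]
      exact (h p hp').add_one
  have hF : Odd (FF n) := by
    rw [Nat.odd_iff] at hσ ⊢
    omega
  intro p hp
  have hT : Odd (TT p (n.factorization p + 1)) := by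
    rw [FF_prod hn0] at hF
    exact Odd.of_dvd_nat hF (Finset.dvd_prod_of_mem _ (Finset.mem_of_mem_erase hp))
  have hv := TT_val_odd (odd_of_mem hp) (h p hp).add_one
  rw [padicValNat.eq_zero_of_not_dvd (fun hd => by rw [Nat.odd_iff] at hT; omega)] at hv
  obtain ⟨k, hk⟩ := h p hp
  by_contra h4
  have h5 : 2 ^ 2 ∣ n.factorization p + 1 + 1 := by omega
  have h6 := (padicValNat_dvd_iff_le (by omega)).mp h5
  omega

end Pool.Agent.AS
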